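import Mathlib

/-!
# Closures of unit groups of real quadratic orders
-/

set_option autoImplicit false
set_option linter.all false

namespace Pool.Agent.H19RQ

open QuadraticAlgebra

variable {p : ℕ} [Fact p.Prime]

/-- the ring `ℤ_p[√D]` -/
abbrev Q (p : ℕ) [Fact p.Prime] (D : ℤ) := QuadraticAlgebra ℤ_[p] (D : ℤ_[p]) 0

variable {D : ℤ}

noncomputable def nm (a : Q p D) : ℤ_[p] := a.re ^ 2 - D * a.im ^ 2

noncomputable def cj (a : Q p D) : Q p D := ⟨a.re, -a.im⟩

theorem nm_mul (a b : Q p D) : nm (a * b) = nm a * nm b := by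
  unfold nm
  rw [re_mul, im_mul]
  ring

theorem nm_one : nm (1 : Q p D) = 1 := by
  unfold nm
  rw [re_one, im_one]
  ring

theorem nm_pow (a : Q p D) (n : ℕ) : nm (a ^ n) = nm a ^ n := by
  induction n with
  | zero => rw [pow_zero, pow_zero, nm_one]
  | succ n ih => rw [pow_succ, nm_mul, ih, pow_succ]

theorem cj_mul (a b : Q p D) : cj (a * b) = cj a * cj b := by
  unfold cj
  ext
  · simp
  · simp
    ring

theorem cj_pow (a : Q p D) (n : ℕ) : cj (a ^ n) = cj a ^ n := by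
  induction n with
  | zero =>
    rw [pow_zero, pow_zero]
    unfold cj
    ext <;> simp
  | succ n ih => rw [pow_succ, cj_mul, ih, pow_succ]

theorem mul_cj (a : Q p D) (h : nm a = 1) : a * cj a = 1 := by
  unfold nm at h
  unfold cj
  ext
  · simp
    linear_combination h
  · simp
    ring

theorem nm_cj (a : Q p D) : nm (cj a) = nm a := by
  unfold nm cj
  simp

theorem one_add_pow {R : Type} [CommRing R] (x : R) (n : ℕ) :
    ∃ G : R, (1 + x) ^ n = 1 + n * x + x ^ 2 * G := by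
  induction n with
  | zero => exact ⟨0, by simp⟩
  | succ n ih =>
    obtain ⟨G, hG⟩ := ih
    refine ⟨G + n + x * G, ?_⟩
    rw [pow_succ, hG]
    push_cast
    ring

theorem tower {R : Type} [CommRing R] (q j : ℕ) (hj : 2 ≤ j) (E W : R)
    (hE : E = 1 + (q : R) ^ j * W) (a : ℕ) :
    ∃ V : R, E ^ q ^ a = 1 + (q : R) ^ (j + a) * (W + q * V) := by
  induction a with
  | zero => exact ⟨0, by rw [pow_zero, pow_one, hE]; ring⟩
  | succ a ih =>
    obtain ⟨V, hV⟩ := ih
    obtain ⟨G, hG⟩ := one_add_pow ((q : R) ^ (j + a) * (W + q * V)) q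
    refine ⟨V + (q : R) ^ (j + a - 2) * (W + q * V) ^ 2 * G, ?_⟩
    rw [pow_succ, pow_mul, hV, hG]
    obtain ⟨r, hr⟩ : ∃ r, j + a = r + 2 := ⟨j + a - 2, by omega⟩
    have e1 : j + (a + 1) = r + 3 := by omega
    have e2 : j + a - 2 = r := by omega
    rw [e1, e2, hr]
    ring

theorem dvd_iff (a : Q p D) : (p : Q p D) ∣ a ↔ (p : ℤ_[p]) ∣ a.re ∧ (p : ℤ_[p]) ∣ a.im := by
  constructor
  · rintro ⟨b, rfl⟩
    constructor
    · exact ⟨b.re, by simp⟩
    · exact ⟨b.im, by simp⟩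
  · rintro ⟨⟨x, hx⟩, ⟨y, hy⟩⟩
    refine ⟨⟨x, y⟩, ?_⟩
    ext
    · simp [hx]
    · simp [hy]

/-- the real part of `(A - 1) / p^k` for elements of norm one -/
theorem re_dvd (hp : p ≠ 2) {A C : Q p D} (hA : nm A = 1) {k : ℕ} (hk : 1 ≤ k)
    (h : A = 1 + (p : Q p D) ^ k * C) : (p : ℤ_[p]) ∣ C.re := by
  have hpk : ((p : Q p D) ^ k) = ⟨(p : ℤ_[p]) ^ k, 0⟩ := by
    have e : (p : Q p D) = QuadraticAlgebra.C (p : ℤ_[p]) := by
      ext <;> simp [QuadraticAlgebra.C]
    rw [e, ← C_pow]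
    rfl
  have h1 : A.re = 1 + (p : ℤ_[p]) ^ k * C.re := by
    rw [h, hpk]
    simp
  have h2 : A.im = (p : ℤ_[p]) ^ k * C.im := by
    rw [h, hpk]
    simp
  unfold nm at hA
  rw [h1, h2] at hA
  have hp0 : (p : ℤ_[p]) ^ k ≠ 0 := pow_ne_zero _ (Nat.cast_ne_zero.2 (Fact.out : p.Prime).ne_zero)
  have h3 : (p : ℤ_[p]) ^ k * (2 * C.re + (p : ℤ_[p]) ^ k * (C.re ^ 2 - D * C.im ^ 2)) = 0 := by
    linear_combination hA
  have h4 := (mul_eq_zero.1 h3).resolve_left hp0
  have h5 : (p : ℤ_[p]) ∣ 2 * C.re := by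
    obtain ⟨r, rfl⟩ : ∃ r, k = r + 1 := ⟨k - 1, by omega⟩
    exact ⟨-((p : ℤ_[p]) ^ r * (C.re ^ 2 - D * C.im ^ 2)), by linear_combination h4⟩
  rcases PadicInt.prime_p.dvd_or_dvd h5 with h6 | h6
  · exfalso
    have h7 : IsUnit ((2 : ℕ) : ℤ_[p]) := by
      rw [PadicInt.isUnit_iff, PadicInt.norm_natCast_eq_one_iff]
      exact (Nat.coprime_primes (Fact.out : p.Prime) Nat.prime_two).2 hp
    exact PadicInt.prime_p.not_unit (isUnit_of_dvd_unit h6 (by exact_mod_cast h7))
  · exact h6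

/-- the powers of `E` are dense in the elements of norm one which are `1` modulo `p^j` -/
theorem approx (hp : p ≠ 2) {A E A' W : Q p D} {j : ℕ} (hj : 2 ≤ j) (hA : nm A = 1) (hE : nm E = 1)
    (hA' : A = 1 + (p : Q p D) ^ j * A') (hW : E = 1 + (p : Q p D) ^ j * W)
    (hu : IsUnit W.im) (a : ℕ) :
    ∃ (i : ℕ) (C : Q p D), A * cj E ^ i = 1 + (p : Q p D) ^ (j + a) * C := by
  induction a with
  | zero => exact ⟨0, A', by rw [pow_zero, mul_one, add_zero]; exact hA'⟩
  | succ a ih =>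
    obtain ⟨i, B, hB⟩ := ih
    obtain ⟨V, hV⟩ := tower p j hj E W hW a
    set Wa := W + (p : Q p D) * V with hWa
    have hBn : nm (A * cj E ^ i) = 1 := by
      rw [nm_mul, nm_pow, nm_cj, hA, hE]
      simp
    have hEn : nm (E ^ p ^ a) = 1 := by rw [nm_pow, hE, one_pow]
    have h1 := re_dvd hp hBn (by omega) hB
    have h2 := re_dvd hp hEn (by omega) hV
    have hWu : IsUnit Wa.im := by
      have e : Wa.im = W.im + p * V.im := by rw [hWa]; simp
      by_contra hn
      have h3 : (p : ℤ_[p]) ∣ Wa.im := by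
        rw [← PadicInt.norm_lt_one_iff_dvd]
        exact PadicInt.not_isUnit_iff.1 hn
      have h4 : (p : ℤ_[p]) ∣ W.im := by
        rw [e] at h3
        exact (dvd_add_left (dvd_mul_right _ _)).1 h3
      exact PadicInt.prime_p.not_unit (isUnit_of_dvd_unit h4 hu)
    obtain ⟨v, hv⟩ := hWu.exists_left_inv
    -- the exponent
    obtain ⟨t, ht⟩ : ∃ t : ℕ, (p : ℤ_[p]) ∣ B.im * v - t := by
      refine ⟨(PadicInt.toZMod (B.im * v)).val, ?_⟩
      have h5 := PadicInt.toZMod_spec (B.im * v)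
      rw [PadicInt.maximalIdeal_eq_span_p, Ideal.mem_span_singleton] at h5
      have e : (((PadicInt.toZMod (B.im * v)).val : ℕ) : ℤ_[p]) = ZMod.cast (PadicInt.toZMod (B.im * v)) :=
        ZMod.natCast_val _
      rw [e]
      exact h5
    have hcj : cj E ^ p ^ a = 1 + (p : Q p D) ^ (j + a) * cj Wa := by
      rw [← cj_pow, hV]
      have hpk : ((p : Q p D) ^ (j + a)) = ⟨(p : ℤ_[p]) ^ (j + a), 0⟩ := by
        have e : (p : Q p D) = QuadraticAlgebra.C (p : ℤ_[p]) := by
          ext <;> simp [QuadraticAlgebra.C]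
        rw [e, ← C_pow]
        rfl
      rw [hpk]
      unfold cj
      ext <;> simp
    obtain ⟨G, hG⟩ := one_add_pow ((p : Q p D) ^ (j + a) * cj Wa) t
    obtain ⟨H, hH⟩ : (p : Q p D) ∣ B + t * cj Wa := by
      rw [dvd_iff]
      constructor
      · have e : (B + (t : Q p D) * cj Wa).re = B.re + t * Wa.re := by
          unfold cj
          simp
        rw [e]
        exact dvd_add h1 (h2.mul_left _)
      · have e : (B + (t : Q p D) * cj Wa).im = B.im - t * Wa.im := by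
          unfold cj
          simp
          ring
        rw [e]
        have e2 : B.im - t * Wa.im = (B.im * v - t) * Wa.im := by
          linear_combination (-B.im) * hv
        rw [e2]
        exact ht.mul_right _
    refine ⟨i + p ^ a * t, H + (p : Q p D) ^ (j + a - 1) * (t * B * cj Wa + cj Wa ^ 2 * G +
      (p : Q p D) ^ (j + a) * B * cj Wa ^ 2 * G), ?_⟩
    rw [pow_add, ← mul_assoc, hB, pow_mul, hcj, hG]
    obtain ⟨r, hr⟩ : ∃ r, j + a = r + 1 := ⟨j + a - 1, by omega⟩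
    have e1 : j + (a + 1) = r + 2 := by omega
    have e2 : j + a - 1 = r := by omega
    rw [e1, e2, hr]
    linear_combination ((p : Q p D) ^ (r + 1)) * hH

end Pool.Agent.H19RQ
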