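import Pool.Agent.H19RQ.A
import Pool.Agent.N874.WG.D

/-!
# Level one for a real quadratic component
-/

set_option autoImplicit false
set_option linter.all false

namespace Pool.Agent.H19RQ

open QuadraticAlgebra Polynomial

variable {p : ℕ} [Fact p.Prime]

variable {D : ℤ}

theorem ppow (k : ℕ) : ((p : Q p D) ^ k) = ⟨(p : ℤ_[p]) ^ k, 0⟩ := by
  have e : (p : Q p D) = QuadraticAlgebra.C (p : ℤ_[p]) := by
    ext <;> simp [QuadraticAlgebra.C]
  rw [e, ← QuadraticAlgebra.C_pow]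
  rfl

theorem dvd_of_toZModPow {k : ℕ} {x y : ℤ_[p]} (h : PadicInt.toZModPow k x = PadicInt.toZModPow k y) :
    ∃ c : ℤ_[p], x - y = (p : ℤ_[p]) ^ k * c := by
  have h1 : x - y ∈ RingHom.ker (PadicInt.toZModPow (p := p) k) := by
    rw [RingHom.mem_ker, map_sub, h, sub_self]
  rw [PadicInt.ker_toZModPow, Ideal.mem_span_singleton] at h1
  exact h1

theorem pigeon (a : Q p D) (ha : IsUnit (nm a)) (k : ℕ) :
    ∃ N : ℕ, 0 < N ∧ ∃ B : Q p D, a ^ N = 1 + (p : Q p D) ^ k * B := by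
  obtain ⟨v, hv⟩ := ha.exists_left_inv
  obtain ⟨b, hb⟩ : ∃ b : Q p D, a * b = 1 := by
    refine ⟨⟨v * a.re, -(v * a.im)⟩, ?_⟩
    unfold nm at hv
    ext
    · simp
      linear_combination hv
    · simp
      ring
  let F : ℕ → ZMod (p ^ k) × ZMod (p ^ k) := fun n =>
    (PadicInt.toZModPow k (a ^ n).re, PadicInt.toZModPow k (a ^ n).im)
  haveI : NeZero (p ^ k) := ⟨pow_ne_zero _ (Fact.out : p.Prime).ne_zero⟩
  obtain ⟨n1, n2, hne, heq⟩ := Finite.exists_ne_map_eq_of_infinite F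
  have key : ∀ n1 n2 : ℕ, n1 < n2 → F n1 = F n2 →
      ∃ N : ℕ, 0 < N ∧ ∃ B : Q p D, a ^ N = 1 + (p : Q p D) ^ k * B := by
    intro n1 n2 hlt heq
    have h1 : PadicInt.toZModPow k (a ^ n2).re = PadicInt.toZModPow k (a ^ n1).re :=
      (congrArg Prod.fst heq).symm
    have h2 : PadicInt.toZModPow k (a ^ n2).im = PadicInt.toZModPow k (a ^ n1).im :=
      (congrArg Prod.snd heq).symm
    obtain ⟨c1, hc1⟩ := dvd_of_toZModPow h1
    obtain ⟨c2, hc2⟩ := dvd_of_toZModPow h2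
    refine ⟨n2 - n1, by omega, b ^ n1 * ⟨c1, c2⟩, ?_⟩
    have h3 : a ^ n2 = a ^ n1 + (p : Q p D) ^ k * ⟨c1, c2⟩ := by
      rw [ppow]
      ext
      · simp
        linear_combination hc1
      · simp
        linear_combination hc2
    have h4 : a ^ n2 = a ^ n1 * a ^ (n2 - n1) := by
      rw [← pow_add]
      congr 1
      omega
    have h5 : a ^ n1 * b ^ n1 = 1 := by rw [← mul_pow, hb, one_pow]
    calc a ^ (n2 - n1) = (a ^ n1 * b ^ n1) * a ^ (n2 - n1) := by rw [h5, one_mul]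
      _ = b ^ n1 * (a ^ n1 * a ^ (n2 - n1)) := by ring
      _ = b ^ n1 * (a ^ n1 + (p : Q p D) ^ k * ⟨c1, c2⟩) := by rw [← h4, h3]
      _ = (a ^ n1 * b ^ n1) + (p : Q p D) ^ k * (b ^ n1 * ⟨c1, c2⟩) := by ring
      _ = _ := by rw [h5]
  rcases lt_or_gt_of_ne hne with h | h
  · exact key n1 n2 h heq
  · exact key n2 n1 h heq.symm

theorem int_pow (hD : 0 < D) {X0 Y0 : ℤ} (hX : 0 < X0) (hY : 0 < Y0) (n : ℕ) :
    ∃ x y : ℤ, 0 < x ∧ 0 ≤ y ∧ (0 < n → 0 < y) ∧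
      ((⟨(X0 : ℤ_[p]), (Y0 : ℤ_[p])⟩ : Q p D) ^ n) = ⟨(x : ℤ_[p]), (y : ℤ_[p])⟩ := by
  induction n with
  | zero =>
    refine ⟨1, 0, one_pos, le_refl _, fun h => absurd h (lt_irrefl _), ?_⟩
    rw [pow_zero]
    ext <;> simp
  | succ n ih =>
    obtain ⟨x, y, hx, hy, -, h⟩ := ih
    refine ⟨x * X0 + D * y * Y0, x * Y0 + y * X0, by positivity, by positivity,
      fun _ => by positivity, ?_⟩
    rw [pow_succ, h]
    ext
    · simp
    · simp

theorem unit_of_not_dvd {w : ℤ_[p]} (h : ¬ (p : ℤ_[p]) ∣ w) : IsUnit w := by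
  by_contra hn
  apply h
  rw [← PadicInt.norm_lt_one_iff_dvd]
  exact PadicInt.not_isUnit_iff.1 hn

theorem two_unit (hp : p ≠ 2) : IsUnit (2 : ℤ_[p]) := by
  have h7 : IsUnit ((2 : ℕ) : ℤ_[p]) := by
    rw [PadicInt.isUnit_iff, PadicInt.norm_natCast_eq_one_iff]
    exact (Nat.coprime_primes (Fact.out : p.Prime) Nat.prime_two).2 hp
  exact_mod_cast h7

theorem dense (hp : p ≠ 2) (hD : 0 < D) (hsq : ¬ IsSquare D) {a0 : Q p D} {m : ℕ} (hm : 0 < m)
    (h : nm a0 ^ m = 1) : ∃ n : ℕ, 0 < n ∧ ∀ k : ℕ, ∃ (x y : ℤ) (B : Q p D),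
      x ^ 2 - D * y ^ 2 = 1 ∧ a0 ^ n = ⟨(x : ℤ_[p]), (y : ℤ_[p])⟩ + (p : Q p D) ^ k * B := by
  have hpp : p.Prime := Fact.out
  have hp0 : (p : ℤ_[p]) ≠ 0 := Nat.cast_ne_zero.2 hpp.ne_zero
  -- a unit
  obtain ⟨X0, Y0, hXY, hX, hY⟩ : ∃ X0 Y0 : ℤ, X0 ^ 2 - D * Y0 ^ 2 = 1 ∧ 0 < X0 ∧ 0 < Y0 := by
    obtain ⟨x, y, hxy, hy⟩ := Pell.exists_of_not_isSquare hD hsq
    refine ⟨|x|, |y|, by rw [sq_abs, sq_abs]; exact hxy, abs_pos.2 ?_, abs_pos.2 hy⟩
    rintro rfl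
    nlinarith [sq_nonneg y]
  set e0 : Q p D := ⟨(X0 : ℤ_[p]), (Y0 : ℤ_[p])⟩ with he0
  have hn0 : nm e0 = 1 := by
    unfold nm
    rw [he0]
    have := congrArg (fun t : ℤ => (t : ℤ_[p])) hXY
    push_cast at this
    exact this
  obtain ⟨M, hM, B1, hB1⟩ := pigeon e0 (by rw [hn0]; exact isUnit_one) 2
  set E := e0 ^ M with hE
  have hEn : nm E = 1 := by rw [hE, nm_pow, hn0, one_pow]
  obtain ⟨xE, yE, -, -, hyE, hEint⟩ := int_pow (p := p) hD hX hY M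
  have hEim : E.im ≠ 0 := by
    rw [hE, he0, hEint]
    show (yE : ℤ_[p]) ≠ 0
    exact_mod_cast (hyE hM).ne'
  obtain ⟨j, w, hw, hjw⟩ := WfDvdMonoid.max_power_factor hEim PadicInt.prime_p.irreducible
  have hE1 : E.im = (p : ℤ_[p]) ^ 2 * B1.im := by
    rw [hB1, ppow]
    simp
  have hE2 : E.re = 1 + (p : ℤ_[p]) ^ 2 * B1.re := by
    rw [hB1, ppow]
    simp
  have hj : 2 ≤ j := by
    by_contra hlt
    have hlt : j = 0 ∨ j = 1 := by omega
    apply hw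
    rcases hlt with h0 | h0
    · rw [h0, pow_zero, one_mul] at hjw
      exact ⟨(p : ℤ_[p]) * B1.im, by rw [← hjw, hE1]; ring⟩
    · rw [h0, pow_one] at hjw
      refine ⟨B1.im, ?_⟩
      apply mul_left_cancel₀ hp0
      rw [← hjw, hE1]
      ring
  have hwu : IsUnit w := unit_of_not_dvd hw
  have hsu : IsUnit (E.re + 1) := by
    apply unit_of_not_dvd
    intro hd
    have h2 : (p : ℤ_[p]) ∣ 2 := by
      have e : (2 : ℤ_[p]) = (E.re + 1) - p * (p * B1.re) := by rw [hE2]; ring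
      rw [e]
      exact dvd_sub hd (dvd_mul_right _ _)
    exact PadicInt.prime_p.not_unit (isUnit_of_dvd_unit h2 (two_unit hp))
  obtain ⟨v, hv⟩ := hsu.exists_left_inv
  have hW : E = 1 + (p : Q p D) ^ j * ⟨v * D * (p : ℤ_[p]) ^ j * w ^ 2, w⟩ := by
    rw [ppow]
    unfold nm at hEn
    ext
    · simp
      have h5 : (E.re - 1) * (E.re + 1) = D * ((p : ℤ_[p]) ^ j * w) ^ 2 := by
        rw [← hjw]
        linear_combination hEn
      linear_combination (-(E.re - 1)) * hv + v * h5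
    · simp
      exact hjw
  -- the element
  have hau : IsUnit (nm a0) := IsUnit.of_pow_eq_one h hm.ne'
  obtain ⟨N1, hN1, B2, hB2⟩ := pigeon a0 hau 2
  obtain ⟨G, hG⟩ := one_add_pow ((p : Q p D) ^ 2 * B2) m
  have hA0 : a0 ^ (N1 * m) = 1 + (p : Q p D) ^ 2 * (m * B2 + (p : Q p D) ^ 2 * B2 ^ 2 * G) := by
    rw [pow_mul, hB2, hG]
    ring
  obtain ⟨V, hV⟩ := tower p 2 (le_refl 2) _ _ hA0 (j - 2)
  have hj2 : 2 + (j - 2) = j := by omega
  rw [hj2, ← pow_mul] at hV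
  refine ⟨N1 * m * p ^ (j - 2), Nat.mul_pos (Nat.mul_pos hN1 hm) (pow_pos hpp.pos _), fun k => ?_⟩
  have hAn : nm (a0 ^ (N1 * m * p ^ (j - 2))) = 1 := by
    rw [nm_pow, mul_assoc, mul_comm N1, mul_assoc, pow_mul, h, one_pow]
  obtain ⟨i, B, hB⟩ := approx hp hj hAn hEn hV hW hwu k
  obtain ⟨x, y, -, -, -, hxy⟩ := int_pow (p := p) hD hX hY (M * i)
  have hEi : E ^ i = ⟨(x : ℤ_[p]), (y : ℤ_[p])⟩ := by
    rw [hE, ← pow_mul]
    exact hxy
  refine ⟨x, y, (p : Q p D) ^ j * B * E ^ i, ?_, ?_⟩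
  · have h1 : nm (E ^ i) = 1 := by rw [nm_pow, hEn, one_pow]
    rw [hEi] at h1
    unfold nm at h1
    simp only at h1
    have h2 : ((x ^ 2 - D * y ^ 2 : ℤ) : ℤ_[p]) = ((1 : ℤ) : ℤ_[p]) := by
      push_cast
      exact h1
    exact Int.cast_injective h2
  · have h1 : E ^ i * cj E ^ i = 1 := by rw [← mul_pow, mul_cj E hEn, one_pow]
    rw [← hEi]
    calc a0 ^ (N1 * m * p ^ (j - 2)) = a0 ^ (N1 * m * p ^ (j - 2)) * (E ^ i * cj E ^ i) := by
          rw [h1, mul_one]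
      _ = (a0 ^ (N1 * m * p ^ (j - 2)) * cj E ^ i) * E ^ i := by ring
      _ = _ := by
        rw [hB, pow_add]
        ring

/-- the polynomial of an element -/
noncomputable def P (b : ℤ) (a : Q p D) : ℤ_[p][X] :=
  Polynomial.C a.re + Polynomial.C a.im * (2 * X + Polynomial.C (b : ℤ_[p]))

noncomputable abbrev fq (b c : ℤ) : ℤ[X] := X ^ 2 + Polynomial.C b * X + Polynomial.C c

open Pool.Agent.N874.WG

theorem toP_fq (b c : ℤ) : toP p (fq b c) = X ^ 2 + Polynomial.C (b : ℤ_[p]) * X + Polynomial.C (c : ℤ_[p]) := by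
  simp [toP, fq]

theorem P_mul (b c : ℤ) (a a' : Q p (b ^ 2 - 4 * c)) :
    P b a * P b a' = P b (a * a') + toP p (fq b c) * (4 * Polynomial.C (a.im * a'.im)) := by
  unfold P
  rw [toP_fq, re_mul, im_mul]
  simp only [Int.cast_sub, Int.cast_pow, Int.cast_mul, Int.cast_ofNat, map_add, map_mul, map_sub,
    map_pow, map_zero, zero_mul, add_zero]
  have e4 : (Polynomial.C (4 : ℤ_[p]) : ℤ_[p][X]) = 4 := rfl
  rw [e4]
  ring

theorem P_pow (b c : ℤ) (a : Q p (b ^ 2 - 4 * c)) (n : ℕ) :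
    ∃ r : ℤ_[p][X], P b a ^ n = P b (a ^ n) + toP p (fq b c) * r := by
  induction n with
  | zero =>
    refine ⟨0, ?_⟩
    unfold P
    rw [pow_zero, pow_zero, re_one, im_one]
    simp
  | succ n ih =>
    obtain ⟨r, hr⟩ := ih
    refine ⟨r * P b a + 4 * Polynomial.C ((a ^ n).im * a.im), ?_⟩
    rw [pow_succ, hr, pow_succ a]
    linear_combination P_mul b c (a ^ n) a

theorem level (hp : p ≠ 2) {b c : ℤ} (hD : 0 < b ^ 2 - 4 * c) (hsq : ¬ IsSquare (b ^ 2 - 4 * c))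
    {z : ℤ_[p]} {m : ℕ} (hm : 0 < m) (h : (toP p (fq b c)).eval z ^ m = 1) :
    ∃ n : ℕ, 0 < n ∧ Approx p (fq b c) z n := by
  obtain ⟨t, ht⟩ := (two_unit (p := p) hp).exists_left_inv
  let a0 : Q p (b ^ 2 - 4 * c) := ⟨z + t * b, -t⟩
  have hP : P b a0 = Polynomial.C z - X := by
    have e1 : (Polynomial.C t : ℤ_[p][X]) * 2 = 1 := by
      have := congrArg (fun s : ℤ_[p] => (Polynomial.C s : ℤ_[p][X])) ht
      simp only [map_mul, map_one] at this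
      exact this
    unfold P
    simp only [a0, map_add, map_mul, map_neg]
    linear_combination (-X) * e1
  have hn : nm a0 = (toP p (fq b c)).eval z := by
    rw [toP_fq]
    unfold nm
    simp only [a0, eval_add, eval_mul, eval_pow, eval_X, eval_C, Int.cast_sub, Int.cast_pow,
      Int.cast_mul, Int.cast_ofNat]
    linear_combination (z * b + c * (2 * t + 1)) * ht
  obtain ⟨n, hn0, hk⟩ := dense hp hD hsq hm (by rw [hn]; exact h)
  refine ⟨n, hn0, fun k => ?_⟩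
  obtain ⟨x, y, B, hxy, hB⟩ := hk k
  obtain ⟨r, hr⟩ := P_pow b c a0 n
  refine ⟨Polynomial.C x + Polynomial.C y * (2 * X + Polynomial.C b), ⟨Polynomial.C x - Polynomial.C y *
    (2 * X + Polynomial.C b), -4 * Polynomial.C (y ^ 2), ?_⟩, r, P b B, ?_⟩
  · have e1 : (Polynomial.C (x ^ 2 - (b ^ 2 - 4 * c) * y ^ 2) : ℤ[X]) = 1 := by rw [hxy, C_1]
    simp only [map_sub, map_mul, map_pow] at e1
    have e4 : (Polynomial.C (4 : ℤ) : ℤ[X]) = 4 := rfl
    rw [e4] at e1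
    unfold fq
    simp only [map_pow]
    linear_combination e1
  · rw [← hP, hr, hB, ppow]
    unfold P toP
    simp
    ring

end Pool.Agent.H19RQ
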