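import Pool.Agent.H19RQ.B

/-!
# Residue classes and points of level one
-/

set_option autoImplicit false
set_option linter.all false

namespace Pool.Agent.H19RQ

open Polynomial Pool.Agent.N874.WG

variable {p : ℕ} [Fact p.Prime]

/-- a root of unity of `ℤ_p` (`p` odd) which is `1` modulo `p` is `1` -/
theorem ru_one (hp : p ≠ 2) {ζ : ℤ_[p]} {n : ℕ} (hn : 0 < n) (h : ζ ^ n = 1)
    (h1 : (p : ℤ_[p]) ∣ ζ - 1) : ζ = 1 := by
  have hpp : p.Prime := Fact.out
  have hpos : 0 < orderOf ζ := orderOf_pos_iff.2 (isOfFinOrder_iff_pow_eq_one.2 ⟨n, hn, h⟩)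
  rw [← orderOf_eq_one_iff]
  by_contra hne
  obtain ⟨q, hq, hqd⟩ := Nat.exists_prime_and_dvd hne
  obtain ⟨k, hk⟩ := hqd
  have h2 : IsPrimitiveRoot (ζ ^ k) q := (IsPrimitiveRoot.orderOf ζ).pow hpos (by rw [hk, mul_comm])
  have h3 : (p : ℤ_[p]) ∣ ζ ^ k - 1 := h1.trans (by simpa using sub_dvd_pow_sub_pow ζ 1 k)
  have h4 : PadicInt.toZMod (ζ ^ k) = 1 := by
    obtain ⟨d, hd⟩ := h3
    have e : ζ ^ k = 1 + p * d := by linear_combination hd
    rw [e, map_add, map_mul, map_one, map_natCast]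
    simp
  have h5 : (q : ZMod p) = 0 := by
    have h6 := h2.geom_sum_eq_zero hq.one_lt
    have h7 := congrArg (PadicInt.toZMod (p := p)) h6
    rw [map_sum, map_zero] at h7
    simp only [map_pow] at h7
    rw [← map_pow, h4] at h7
    simpa using h7
  rw [ZMod.natCast_eq_zero_iff] at h5
  have h6 : p = q := (Nat.prime_dvd_prime_iff_eq hpp hq).1 h5
  have h8 := prime_dvd hq (by rw [← h6]; exact hp) h2
  rw [← h6] at h8
  have := Nat.le_of_dvd (by have := hpp.two_le; omega) h8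
  have := hpp.two_le
  omega

theorem fq_eval (b c : ℤ) (z : ℤ_[p]) : (toP p (fq b c)).eval z = z ^ 2 + b * z + c := by
  rw [toP_fq]
  simp

theorem exists_pt (hp : p ≠ 2) (b c r : ℤ) (hr : ¬ (p : ℤ) ∣ (fq b c).eval r * (2 * r + b)) :
    ∃ z : ℤ_[p], (toP p (fq b c)).eval z ^ (p - 1) = 1 ∧ (p : ℤ_[p]) ∣ z - r := by
  have hpp : p.Prime := Fact.out
  have hp2 := hpp.two_le
  have hprime : Prime (p : ℤ) := Nat.prime_iff_prime_int.1 hpp
  have h1 : ¬ (p : ℤ) ∣ (fq b c).eval r := fun h => hr (h.mul_right _)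
  have h2 : ¬ (p : ℤ) ∣ 2 * r + b := fun h => hr (h.mul_left _)
  let F : ℤ_[p][X] := (toP p (fq b c)) ^ (p - 1) - 1
  have hunit : ∀ x : ℤ, ¬ (p : ℤ) ∣ x → IsUnit (x : ℤ_[p]) := by
    intro x hx
    apply unit_of_not_dvd
    rw [← PadicInt.norm_lt_one_iff_dvd, PadicInt.norm_int_lt_one_iff_dvd]
    exact hx
  have hFa : F.aeval (r : ℤ_[p]) = (toP p (fq b c)).eval (r : ℤ_[p]) ^ (p - 1) - 1 := by
    simp [F, aeval_def]
  have hFd : F.derivative.aeval (r : ℤ_[p]) = ((p - 1 : ℕ) : ℤ_[p]) *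
      (toP p (fq b c)).eval (r : ℤ_[p]) ^ (p - 2) * (2 * r + b) := by
    have e : p - 1 - 1 = p - 2 := by omega
    simp only [F, derivative_sub, derivative_one, sub_zero, derivative_pow, e, aeval_def,
      Algebra.algebraMap_self, eval₂_id, eval_mul, eval_C, eval_pow, toP_fq, derivative_add,
      derivative_mul, derivative_X, derivative_C, eval_add, eval_X, mul_one, zero_mul, zero_add,
      add_zero, Nat.cast_ofNat, Nat.add_one_sub_one, pow_one, map_ofNat]
    simp
  have hd1 : IsUnit (F.derivative.aeval (r : ℤ_[p])) := by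
    rw [hFd]
    refine IsUnit.mul (IsUnit.mul ?_ (IsUnit.pow _ ?_)) ?_
    · have := hunit ((p - 1 : ℕ) : ℤ) (by
        intro h
        have h3 : p ∣ p - 1 := by exact_mod_cast h
        have := Nat.le_of_dvd (by omega) h3
        omega)
      exact_mod_cast this
    · rw [toP_eval_int]
      exact hunit _ h1
    · have := hunit _ h2
      push_cast at this
      exact this
  have hn1 : ‖F.derivative.aeval (r : ℤ_[p])‖ = 1 := PadicInt.isUnit_iff.1 hd1
  have hn0 : ‖F.aeval (r : ℤ_[p])‖ < 1 := by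
    rw [PadicInt.norm_lt_one_iff_dvd, hFa, toP_eval_int]
    have h3 : (p : ℤ) ∣ (fq b c).eval r ^ (p - 1) - 1 := by
      have h4 : ((((fq b c).eval r ^ (p - 1) - 1 : ℤ)) : ZMod p) = 0 := by
        push_cast
        rw [ZMod.pow_card_sub_one_eq_one, sub_self]
        rw [Ne, ZMod.intCast_zmod_eq_zero_iff_dvd]
        exact h1
      exact (ZMod.intCast_zmod_eq_zero_iff_dvd _ _).1 h4
    obtain ⟨d, hd⟩ := h3
    refine ⟨d, ?_⟩
    have := congrArg (fun t : ℤ => (t : ℤ_[p])) hd
    push_cast at this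
    exact this
  obtain ⟨z, hz, hz2, -⟩ := hensels_lemma (F := F) (a := (r : ℤ_[p])) (by
    rw [hn1, one_pow]
    exact hn0)
  refine ⟨z, ?_, ?_⟩
  · have e : F.aeval z = (toP p (fq b c)).eval z ^ (p - 1) - 1 := by
      simp [F, aeval_def]
    rw [e, sub_eq_zero] at hz
    exact hz
  · rw [hn1] at hz2
    exact (PadicInt.norm_lt_one_iff_dvd _).1 hz2

theorem unique_pt (hp : p ≠ 2) (b c r : ℤ) (hr : ¬ (p : ℤ) ∣ (fq b c).eval r * (2 * r + b))
    {z z' : ℤ_[p]} {n n' : ℕ} (hn : 0 < n) (hn' : 0 < n')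
    (h : (toP p (fq b c)).eval z ^ n = 1) (h' : (toP p (fq b c)).eval z' ^ n' = 1)
    (hz : (p : ℤ_[p]) ∣ z - r) (hz' : (p : ℤ_[p]) ∣ z' - r) : z = z' := by
  set u := (toP p (fq b c)).eval z with hu
  set u' := (toP p (fq b c)).eval z' with hu'
  obtain ⟨v, hv⟩ := (IsUnit.of_pow_eq_one h' hn'.ne').exists_left_inv
  have hzz : (p : ℤ_[p]) ∣ z - z' := by
    have e : z - z' = (z - r) - (z' - r) := by ring
    rw [e]
    exact dvd_sub hz hz'
  have hd : u - u' = (z - z') * (z + z' + b) := by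
    rw [hu, hu', fq_eval, fq_eval]
    ring
  have hvn : v ^ n' = 1 := by
    have : (v * u') ^ n' = 1 := by rw [hv, one_pow]
    rwa [mul_pow, h', mul_one] at this
  have h1 : v * u = 1 := by
    refine ru_one hp (Nat.mul_pos hn hn') (n := n * n') ?_ ?_
    · rw [mul_pow, pow_mul u, h, one_pow, mul_comm n, pow_mul v, hvn, one_pow, one_mul]
    · have e : v * u - 1 = v * ((z - z') * (z + z' + b)) := by
        rw [← hd]
        linear_combination hv
      rw [e]
      exact (hzz.mul_right _).mul_left _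
  have h2 : u = u' := by
    have : u' * (v * u) = u' * 1 := by rw [h1]
    linear_combination this - u * hv
  rw [h2, sub_self] at hd
  rcases mul_eq_zero.1 hd.symm with h3 | h3
  · exact sub_eq_zero.1 h3
  · exfalso
    apply hr
    apply Dvd.dvd.mul_left
    rw [← PadicInt.norm_int_lt_one_iff_dvd, PadicInt.norm_lt_one_iff_dvd]
    have e : ((2 * r + b : ℤ) : ℤ_[p]) = -((z - r) + (z' - r)) := by
      push_cast
      linear_combination h3
    rw [e]
    exact (dvd_add hz hz').neg_right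

/-- the number of the residue classes -/
theorem card_classes (hp : p ≠ 2) (b c : ℤ) :
    p - 3 ≤ ((Finset.range p).filter fun r : ℕ =>
      ¬ (p : ℤ) ∣ (fq b c).eval (r : ℤ) * (2 * r + b)).card := by
  classical
  have hpp : p.Prime := Fact.out
  let G : (ZMod p)[X] := (X ^ 2 + C (b : ZMod p) * X + C (c : ZMod p)) * (C 2 * X + C (b : ZMod p))
  have h20 : (2 : ZMod p) ≠ 0 := by
    intro h
    have h1 : ((2 : ℕ) : ZMod p) = 0 := by exact_mod_cast h
    rw [ZMod.natCast_eq_zero_iff] at h1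
    exact hp ((Nat.prime_dvd_prime_iff_eq hpp Nat.prime_two).1 h1)
  have hG1 : (X ^ 2 + C (b : ZMod p) * X + C (c : ZMod p) : (ZMod p)[X]).natDegree = 2 := by
    compute_degree!
  have hG2 : (C 2 * X + C (b : ZMod p) : (ZMod p)[X]).natDegree = 1 := natDegree_linear h20
  have hne1 : (X ^ 2 + C (b : ZMod p) * X + C (c : ZMod p) : (ZMod p)[X]) ≠ 0 := by
    intro h
    rw [h] at hG1
    simp at hG1
  have hne2 : (C 2 * X + C (b : ZMod p) : (ZMod p)[X]) ≠ 0 := by
    intro h
    rw [h] at hG2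
    simp at hG2
  have hGne : G ≠ 0 := mul_ne_zero hne1 hne2
  have hGd : G.natDegree = 3 := by
    rw [natDegree_mul hne1 hne2, hG1, hG2]
  have hbad : ((Finset.range p).filter fun r : ℕ =>
      ((p : ℤ) ∣ (fq b c).eval (r : ℤ) * (2 * r + b))).card ≤ 3 := by
    have h1 : G.roots.toFinset.card ≤ 3 :=
      (Multiset.toFinset_card_le _).trans ((card_roots' _).trans hGd.le)
    refine le_trans (Finset.card_le_card_of_injOn (fun r : ℕ => (r : ZMod p)) ?_ ?_) h1
    · intro r hr
      have h2 := (Finset.mem_filter.1 (Finset.mem_coe.1 hr)).2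
      rw [Finset.mem_coe, Multiset.mem_toFinset, mem_roots hGne, IsRoot.def]
      rw [← ZMod.intCast_zmod_eq_zero_iff_dvd] at h2
      simp only [fq, eval_add, eval_mul, eval_pow, eval_X, eval_C] at h2
      push_cast at h2
      simp only [G, eval_add, eval_mul, eval_pow, eval_X, eval_C]
      exact h2
    · intro r hr s hs hrs
      have h2 := Finset.mem_range.1 (Finset.mem_filter.1 (Finset.mem_coe.1 hr)).1
      have h3 := Finset.mem_range.1 (Finset.mem_filter.1 (Finset.mem_coe.1 hs)).1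
      have h4 := (ZMod.natCast_eq_natCast_iff' r s p).1 hrs
      rwa [Nat.mod_eq_of_lt h2, Nat.mod_eq_of_lt h3] at h4
  have := Finset.card_filter_add_card_filter_not (s := Finset.range p) (fun r : ℕ =>
      ((p : ℤ) ∣ (fq b c).eval (r : ℤ) * (2 * r + b)))
  rw [Finset.card_range] at this
  omega

end Pool.Agent.H19RQ
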