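import Pool.Agent.H19RQ.C

/-!
# Weakly global points of level one: a real quadratic component

`f = X² + bX + c ∈ ℤ[X]` with positive discriminant `b² - 4c`, not a square; `𝒟 = ∞ ∪ V(f) ⊂ ℙ¹_ℤ`,
`𝒳 = ℙ¹_ℤ ∖ 𝒟` (kind (i) of the problem).  Then `𝒳(ℤ) = {z ∈ ℤ : f(z) ∈ ℤ^×}`,
`𝒳(ℤ_p) = {z ∈ ℤ_p : f(z) ∈ ℤ_p^×}`, and `𝒳(ℤ_p)_1` is the set `Level1` of the `z ∈ 𝒳(ℤ_p)` such that a
power of `z - X` is in the closure of `(ℤ[X]/(f))^×` in `(ℤ_p[X]/(f))^×` (Kummer theory; see the starting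
file `LevelOneForTheLine`, whose definitions are used here).

For every odd prime `p`:
* `𝒳(ℤ_p)_1` is exactly the set of the `z ∈ ℤ_p` such that `f(z)` is a root of unity.
* Every residue class `r` modulo `p` such that `p` does not divide `f(r) f'(r)` contains exactly one point of
  `𝒳(ℤ_p)_1`; there are at least `p - 3` such classes.
* `𝒳(ℤ)` has at most four points. So for `p ≥ 11` the set `𝒳(ℤ_p)_1` is larger than `𝒳(ℤ)`: in question Q1
  the number `N` is at least two for all these `p` and all real quadratic `f`, while `N = 1` is enough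
  for all `p` if `f` is an irreducible quadratic polynomial with negative discriminant
  (`LevelOneForTheLine`).

Idea: the elements of norm one of `ℤ_p[X]/(f)` are a `p`-adic group of dimension one, and the powers of a
solution of Pell's equation are dense in an open subgroup of it.
-/

set_option autoImplicit false

open Polynomial

namespace Pool.Agent.H19RQ.Main

/-- `𝒳(ℤ)` -/
def IntPts (f : ℤ[X]) : Set ℤ := {z | IsUnit (f.eval z)}

/-- `𝒳(ℤ_p)` -/
def PadicPts (p : ℕ) [Fact p.Prime] (f : ℤ[X]) : Set ℤ_[p] :=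
  {z | IsUnit ((f.map (Int.castRingHom ℤ_[p])).eval z)}

/-- `u` is a unit of `ℤ[X]/(f)` -/
def UnitMod (f u : ℤ[X]) : Prop := ∃ v a : ℤ[X], u * v = 1 + f * a

/-- the class of `P` is in the closure of the image of `(ℤ[X]/(f))^×` in `ℤ_p[X]/(f)` -/
def InClosure (p : ℕ) [Fact p.Prime] (f : ℤ[X]) (P : ℤ_[p][X]) : Prop :=
  ∀ k : ℕ, ∃ u : ℤ[X], UnitMod f u ∧ ∃ b c : ℤ_[p][X],
    P = u.map (Int.castRingHom ℤ_[p]) + f.map (Int.castRingHom ℤ_[p]) * b +
      C ((p : ℤ_[p]) ^ k) * c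

/-- `𝒳(ℤ_p)_1` -/
def Level1 (p : ℕ) [Fact p.Prime] (f : ℤ[X]) : Set ℤ_[p] :=
  {z | z ∈ PadicPts p f ∧ ∃ n : ℕ, 0 < n ∧ InClosure p f ((C z - X) ^ n)}

/-- `𝒳(ℤ_p)_1 = 𝒳(ℤ)` -/
def Settled (p : ℕ) [Fact p.Prime] (f : ℤ[X]) : Prop :=
  Level1 p f = (fun z : ℤ => (z : ℤ_[p])) '' IntPts f

open Pool.Agent.N874.WG Pool.Agent.H19RQ in
open scoped Classical in
theorem result (f : ℤ[X]) (b c : ℤ) (hf : f = X ^ 2 + C b * X + C c) (hD : 0 < b ^ 2 - 4 * c)
    (hsq : ¬ IsSquare (b ^ 2 - 4 * c)) (p : ℕ) [Fact p.Prime] (hp : p ≠ 2) :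
    -- the points of level one
    Level1 p f = {z : ℤ_[p] | ∃ n : ℕ, 0 < n ∧ (f.map (Int.castRingHom ℤ_[p])).eval z ^ n = 1} ∧
    -- the residue classes
    (∀ r : ℤ, ¬ (p : ℤ) ∣ f.eval r * (2 * r + b) →
      ∃! z : ℤ_[p], z ∈ Level1 p f ∧ (p : ℤ_[p]) ∣ z - r) ∧
    -- the numbers of points
    ((p - 3 : ℕ) : ℕ∞) ≤ (Level1 p f).encard ∧ (IntPts f).encard ≤ 4 ∧
    (11 ≤ p → ¬ Settled p f) := by
  have hff : f = fq b c := hf
  have hmon : (fq b c).Monic := by
    unfold fq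
    monicity!
  have h1 : Level1 p f =
      {z : ℤ_[p] | ∃ n : ℕ, 0 < n ∧ (f.map (Int.castRingHom ℤ_[p])).eval z ^ n = 1} := by
    rw [hff]
    ext z
    constructor
    · rintro ⟨-, n, hn, h⟩
      exact ⟨2 * n, by omega, f_pow hmon h⟩
    · rintro ⟨n, hn, h⟩
      obtain ⟨k, hk, h2⟩ := level hp hD hsq hn h
      exact ⟨IsUnit.of_pow_eq_one h hn.ne', k, hk, h2⟩
  have h2 : ∀ r : ℤ, ¬ (p : ℤ) ∣ f.eval r * (2 * r + b) →
      ∃! z : ℤ_[p], z ∈ Level1 p f ∧ (p : ℤ_[p]) ∣ z - r := by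
    intro r hr
    rw [hff] at hr
    obtain ⟨z, hz, hzr⟩ := exists_pt hp b c r hr
    have hp1 : 0 < p - 1 := by
      have := (Fact.out : p.Prime).two_le
      omega
    refine ⟨z, ⟨?_, hzr⟩, ?_⟩
    · rw [h1, hff]
      exact ⟨p - 1, hp1, hz⟩
    · rintro z' ⟨hz', hzr'⟩
      rw [h1, hff] at hz'
      obtain ⟨n, hn, hz'⟩ := hz'
      exact unique_pt hp b c r hr hn hp1 hz' hz hzr' hzr
  have h3 : ((p - 3 : ℕ) : ℕ∞) ≤ (Level1 p f).encard := by
    set S := (Finset.range p).filter fun r : ℕ =>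
      ¬ (p : ℤ) ∣ (fq b c).eval (r : ℤ) * (2 * r + b) with hS
    have hcard := card_classes hp b c
    have hex : ∀ r : ℕ, ∃ z : ℤ_[p], r ∈ S → z ∈ Level1 p f ∧ (p : ℤ_[p]) ∣ z - (r : ℤ) := by
      intro r
      by_cases hr : r ∈ S
      · obtain ⟨z, hz, -⟩ := h2 r (by rw [hff]; exact (Finset.mem_filter.1 hr).2)
        exact ⟨z, fun _ => hz⟩
      · exact ⟨0, fun h => absurd h hr⟩
    choose F hF using hex
    have hinj : Set.InjOn F (S : Set ℕ) := by
      intro r hr s hs hrs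
      have e1 := (hF r hr).2
      have e2 := (hF s hs).2
      rw [hrs] at e1
      have e3 : (p : ℤ_[p]) ∣ (((s : ℤ) - (r : ℤ) : ℤ) : ℤ_[p]) := by
        have e : (((s : ℤ) - (r : ℤ) : ℤ) : ℤ_[p]) =
            (F s - ((r : ℤ) : ℤ_[p])) - (F s - ((s : ℤ) : ℤ_[p])) := by
          push_cast
          ring
        rw [e]
        exact dvd_sub e1 e2
      rw [← PadicInt.norm_lt_one_iff_dvd, PadicInt.norm_int_lt_one_iff_dvd] at e3
      have e4 := Finset.mem_range.1 (Finset.mem_filter.1 (Finset.mem_coe.1 hr)).1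
      have e5 := Finset.mem_range.1 (Finset.mem_filter.1 (Finset.mem_coe.1 hs)).1
      have e6 : ((s : ℤ) - (r : ℤ)) = 0 := by
        apply Int.eq_zero_of_abs_lt_dvd e3
        rw [abs_lt]
        constructor <;> omega
      omega
    calc ((p - 3 : ℕ) : ℕ∞) ≤ (S.card : ℕ∞) := by exact_mod_cast hcard
      _ = (S : Set ℕ).encard := (Set.encard_coe_eq_coe_finsetCard S).symm
      _ = (F '' (S : Set ℕ)).encard := (hinj.encard_image).symm
      _ ≤ (Level1 p f).encard := by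
        refine Set.encard_le_encard ?_
        rintro _ ⟨r, hr, rfl⟩
        exact (hF r hr).1
  have h4 : (IntPts f).encard ≤ 4 := by
    have d1 : (fq b c - C 1).natDegree = 2 := by
      unfold fq
      compute_degree!
    have d2 : (fq b c - C (-1)).natDegree = 2 := by
      unfold fq
      compute_degree!
    have n1 : fq b c - C 1 ≠ 0 := by
      intro h
      rw [h] at d1
      simp at d1
    have n2 : fq b c - C (-1) ≠ 0 := by
      intro h
      rw [h] at d2
      simp at d2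
    have hsub : IntPts f ⊆ (((fq b c - C 1).roots.toFinset ∪ (fq b c - C (-1)).roots.toFinset :
        Finset ℤ) : Set ℤ) := by
      intro x hx
      rw [hff] at hx
      have hx' : (fq b c).eval x = 1 ∨ (fq b c).eval x = -1 := Int.isUnit_iff.1 hx
      rw [Finset.mem_coe, Finset.mem_union, Multiset.mem_toFinset, Multiset.mem_toFinset,
        mem_roots n1, mem_roots n2, IsRoot.def, IsRoot.def, eval_sub, eval_sub, eval_C, eval_C]
      rcases hx' with h | h
      · left
        rw [h, sub_self]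
      · right
        rw [h, sub_self]
    refine (Set.encard_le_encard hsub).trans ?_
    rw [Set.encard_coe_eq_coe_finsetCard]
    have : ((fq b c - C 1).roots.toFinset ∪ (fq b c - C (-1)).roots.toFinset).card ≤ 4 := by
      refine (Finset.card_union_le _ _).trans ?_
      have e1 := (Multiset.toFinset_card_le (fq b c - C 1).roots).trans (card_roots' _)
      have e2 := (Multiset.toFinset_card_le (fq b c - C (-1)).roots).trans (card_roots' _)
      omega
    exact_mod_cast this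
  refine ⟨h1, h2, h3, h4, fun hp11 hset => ?_⟩
  unfold Settled at hset
  rw [hset] at h3
  have h5 := h3.trans ((Set.encard_image_le _ _).trans h4)
  have h6 : p - 3 ≤ 4 := by exact_mod_cast h5
  omega

end Pool.Agent.H19RQ.Main
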